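import Pool.Agent.SphLim.LowerMain

/-!
# MP_1d8c1e_co: the lower half of the small-scale limit, for every contractible configuration
-/

open MeasureTheory Filter Topology Metric
open scoped Pointwise

namespace Pool.Agent.Results.MP_1d8c1e_co.LowerHalf

open SphLim

/-- For every `d ≥ 2` and every contractible configuration `P` on the unit sphere of `ℝ^(d+1)`
(a finite subset of the sphere which is the image of a subset `P'` of `ℝ^d` under an isometric
embedding of `ℝ^d`), the spherical independence densities satisfy
`liminf_{t → 0+} m_{S^d}(tP) ≥ m_{ℝ^d}(P')`. -/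
theorem result (d : ℕ) (_hd : 2 ≤ d) (P : Set (Eu (d + 1))) (hfin : P.Finite)
    (_hP : P ⊆ sphere (0 : Eu (d + 1)) 1) (P' : Set (Eu d)) (f : Eu d → Eu (d + 1))
    (hf : Isometry f) (hfP : f '' P' = P) :
    mEuc d P' ≤ liminf (fun t : ℝ => mSph d (t • P)) (𝓝[>] 0) := by
  have hfin' : P'.Finite := by
    refine Set.Finite.of_finite_image ?_ hf.injective.injOn
    rw [hfP]
    exact hfin
  have : Finite P' := hfin'
  set p : Fin (Nat.card P') → Eu d := fun i => ((Finite.equivFin P').symm i : Eu d) with hp
  have hrange : Set.range p = P' := by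
    ext x
    constructor
    · rintro ⟨i, rfl⟩
      exact ((Finite.equivFin P').symm i).2
    · intro hx
      refine ⟨Finite.equivFin P' ⟨x, hx⟩, ?_⟩
      simp only [hp]
      rw [Equiv.symm_apply_apply]
  have hrange' : Set.range (fun i => f (p i)) = P := by
    have h1 : Set.range (fun i => f (p i)) = f '' Set.range p := by
      rw [← Set.range_comp]
      rfl
    rw [h1, hrange, hfP]
  apply le_of_forall_sub_le
  intro ε hε
  have h := lower_bound p (fun i => f (p i)) (fun i j => hf.dist_eq _ _) hε
  rw [hrange, hrange'] at h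
  refine le_liminf_of_le ?_ h
  refine IsBoundedUnder.isCoboundedUnder_ge ?_
  refine ⟨1, ?_⟩
  rw [eventually_map]
  filter_upwards with t
  apply Real.sSup_le _ zero_le_one
  rintro s ⟨A, -, hA, -, rfl⟩
  exact sphProb_le_one hA

end Pool.Agent.Results.MP_1d8c1e_co.LowerHalf
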