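import Pool.Agent.SphLim.Upper3

/-!
# MP_1d8c1e_co: the full small-scale limit for affinely independent configurations
-/

open MeasureTheory Filter Topology Metric
open scoped Pointwise

namespace Pool.Agent.Results.MP_1d8c1e_co.SimplexLimit

open SphLim

/-- For every `d ≥ 2` and every affinely independent contractible configuration `P` on the unit
sphere of `ℝ^(d+1)` with an isometric copy `P'` in `ℝ^d`, if `d ≥ 3` or `|P| ≤ d`, then the
spherical independence densities `m_{S^d}(tP)` converge to the Euclidean independence density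
`m_{ℝ^d}(P')` as `t → 0+`. -/
theorem result (d : ℕ) (hd : 2 ≤ d) (P : Set (Eu (d + 1))) (hfin : P.Finite)
    (_hP : P ⊆ sphere (0 : Eu (d + 1)) 1) (hcard : P.ncard ≤ d ∨ 3 ≤ d)
    (haff : AffineIndependent ℝ ((↑) : P → Eu (d + 1))) (P' : Set (Eu d))
    (f : Eu d → Eu (d + 1)) (hf : Isometry f) (hfP : f '' P' = P) :
    Tendsto (fun t : ℝ => mSph d (t • P)) (𝓝[>] 0) (𝓝 (mEuc d P')) :=
  tendsto_prod hd hfin hcard haff hf hfP

end Pool.Agent.Results.MP_1d8c1e_co.SimplexLimit
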